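import Pool.Agent.H116.HL.Fin2
import Pool.Graph.R_seed8.KLev.Halving
import Pool.Graph.R_seed8.KLev.Final

/-!
# Halving lines: `f n ≥ n ^ (1 + c (log log log n) ^ 2 / (log log n) ^ 3)`

`Line`, `GeneralPosition`, `IsBisector` and `f` are defined in `KLev/Halving.lean`
(namespace `KLev.Halving`):

* `Line a b c = {p | a * p.1 + b * p.2 = c}`,
* `GeneralPosition P`: no three distinct points of `P` on a common line,
* `IsBisector P L`: `L` is a line through two distinct points of `P` with exactly
  `|P| / 2 - 1` points of `P` on each open side,
* `f n`: the maximum of the number of bisectors over all `n`-point sets in general position.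

The theorem improves the bound `n ^ (1 + 1 / (log log n) ^ 4)` of `LogLogPower.lean`. The new part
of the proof is in `Pool/Agent/H116/HL`: a block of multiplicity `M` is composed from inner blocks
of geometrically decreasing multiplicities `M / K, M / (2 K), ..., M / K ^ 2`, `K` copies of each,
where `K` is about `log M / log log M`. The slopes of the outer arrangement are kept at one fixed
resolution. The resolution which is needed to insert an inner block is the margin of that block;
as the blocks decrease, so does this requirement, while the resolution used up by the previous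
insertions increases, and the sum stays within one resolution budget. This replaces the
`(log M) ^ 2` equal copies of the left nested composition.
-/

namespace Pool.Agent.Results.MP_e17eac_co.LogLogCube

open Filter KLev

/-- There is `c > 0` such that all large even `n` satisfy
`f n ≥ n ^ (1 + c (log log log n) ^ 2 / (log log n) ^ 3)`. -/
theorem result : ∃ c : ℝ, 0 < c ∧ ∀ᶠ n : ℕ in atTop, Even n →
    (n : ℝ) ^ (1 + c * (Real.log (Real.log (Real.log n))) ^ 2 / (Real.log (Real.log n)) ^ 3) ≤
      (Halving.f n : ℝ) := by
  obtain ⟨c, hc, h⟩ := Pool.Agent.H116.HL.finalP2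
  refine ⟨c, hc, ?_⟩
  obtain ⟨a, ha⟩ := (h 1).exists_forall_of_atTop
  filter_upwards [eventually_ge_atTop (2 * a + 2)] with n hn heven
  obtain ⟨m, hm⟩ := heven
  obtain ⟨N, E, P, hH, hN, hE⟩ := ha m (by omega)
  have h1 := hH.le_f hN
  have e : 2 * m = n := by omega
  rw [e] at h1
  have h2 : (E : ℝ) ≤ Halving.f n := by exact_mod_cast h1
  have hnm : (n : ℝ) = 2 * m := by rw [← e]; push_cast; ring
  have hm0 : (0 : ℝ) ≤ m := Nat.cast_nonneg _
  have h3 := hE n (by linarith) (by linarith)
  rw [one_mul] at h3
  exact h3.trans h2

end Pool.Agent.Results.MP_e17eac_co.LogLogCube
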